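import Pool.Agent.H50.WS.Main

/-!
# Wirsching's principle in residue classes, for the central part of the estimating series

`T`, `e`, `eZ`, `kk`, `s`, `sNat`, `sbar` are the objects of the problem, as defined in the library
module `Pool.Graph.R_seed8.W26.WsDefs`: `e ℓ k a` is the number `e_ℓ(k,a)`, `eZ` its extension to the
3-adic integers, `kk n ℓ = n + ⌊ℓ log_2 (3/2)⌋`, `s n a` and `sNat n a` the estimating series at a
3-adic integer and at a positive integer, `sbar n` the mean value of `s n` over the 3-adic units.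
-/

set_option autoImplicit false

namespace Pool.Agent.Results.MP_0f3fac_nt.InEveryClass

open Pool.Agent.W26.Ws

/-- `eClass M r ℓ k a`: the number of those `b` counted by `e ℓ k a` (positive integers `b` with
`T^(k+ℓ) b = a` and exactly `k` even and `ℓ` odd numbers among `b, T b, ..., T^(k+ℓ-1) b`) that lie
in the residue class of `r` modulo `6 ^ M` -/
noncomputable def eClass (M r ℓ k a : ℕ) : ℕ :=
  {b : ℕ | (0 < b ∧ T^[k + ℓ] b = a ∧
    ((Finset.range (k + ℓ)).filter (fun i => T^[i] b % 2 = 0)).card = k ∧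
    ((Finset.range (k + ℓ)).filter (fun i => T^[i] b % 2 = 1)).card = ℓ) ∧
    b ≡ r [MOD 6 ^ M]}.ncard

/-- the extension of `eClass M r ℓ k` to the 3-adic integers: its value at a positive integer
congruent to `a` modulo `3 ^ (ℓ + M)` -/
noncomputable def eClassZ (M r ℓ k : ℕ) (a : ℤ_[3]) : ℕ :=
  eClass M r ℓ k (a.appr (ℓ + M) + 3 ^ (ℓ + M))

/-- the central range `2.15 n ≤ ℓ ≤ 2.75 n` of the summation index -/
def central (n : ℕ) : Finset ℕ :=
  (Finset.range (3 * n + 1)).filter fun ℓ => 43 * n ≤ 20 * ℓ ∧ 20 * ℓ ≤ 55 * n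

theorem central_nat : ∃ c : ℝ, 0 < c ∧ ∃ A : ℕ, ∀ M n : ℕ, A * 9 ^ M ≤ n → ∀ r : ℕ,
    (∀ a : ℤ_[3]ˣ, ENNReal.ofReal (c / 2 ^ (M + 2 * 9 ^ M) * 2 ^ n) ≤
      ∑ ℓ ∈ central n, (eClassZ M r ℓ (kk n ℓ) (a : ℤ_[3]) : ENNReal)) ∧
    (∀ a : ℕ, 0 < a → ¬ 3 ∣ a → ENNReal.ofReal (c / 2 ^ (M + 2 * 9 ^ M) * 2 ^ n) ≤
      ∑ ℓ ∈ central n, (eClass M r ℓ (kk n ℓ) a : ENNReal)) := by
  obtain ⟨c, hc, A, h⟩ := Pool.Agent.H50.WS.main_class
  refine ⟨c, hc, A, fun M n hn r => ⟨fun a => ?_, fun a ha0 ha => ?_⟩⟩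
  · refine h M n hn r ((a : ℤ_[3]).appr (3 * n + 1 + M) : ℤ) (appr_unit a.isUnit (by omega))
      (fun L => (a : ℤ_[3]).appr (L + M) + 3 ^ (L + M)) (fun L => by positivity) ?_
    intro L hL
    have hL' : L ≤ 3 * n := by
      have := (Finset.mem_filter.1 hL).1
      rw [Finset.mem_range] at this
      omega
    have h5 := appr_congr (a : ℤ_[3]) (m := L + M) (n := 3 * n + 1 + M) (by omega)
    have h6 : (3 : ℤ) ^ L ∣ 3 ^ (L + M) := pow_dvd_pow 3 (by omega)
    have h7 := h6.trans h5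
    push_cast
    have e1 : ((a : ℤ_[3]).appr (L + M) : ℤ) + 3 ^ (L + M) - (a : ℤ_[3]).appr (3 * n + 1 + M) =
        3 ^ (L + M) - (((a : ℤ_[3]).appr (3 * n + 1 + M) : ℤ) - (a : ℤ_[3]).appr (L + M)) := by
      ring
    rw [e1]
    exact dvd_sub h6 h7
  · refine h M n hn r (a : ℤ) (by exact_mod_cast ha) (fun _ => a) (fun _ => ha0) ?_
    intro L _
    simp

theorem eClass_zero (r ℓ k a : ℕ) : eClass 0 r ℓ k a = e ℓ k a := by
  unfold eClass e
  congr 1
  ext b
  simp [Nat.modEq_one]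

theorem one_le_e (k a : ℕ) (ha : 0 < a) : 1 ≤ e 0 k a := by
  have h := card_le_e (ℓ := 0) (k := k) ha {[]} (by
    intro w hw
    rw [Finset.mem_singleton] at hw
    subst hw
    exact ⟨by simp, rfl, by simp, by simp⟩)
  simpa using h

theorem key_lt {d : ℝ} (hd : 0 < d) (n : ℕ) :
    ENNReal.ofReal (d / 150) * sbar n < ENNReal.ofReal (d * 2 ^ n) := by
  calc ENNReal.ofReal (d / 150) * sbar n
      ≤ ENNReal.ofReal (d / 150) * ENNReal.ofReal (75 * 2 ^ n) := mul_le_mul_right (sbar_le n) _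
    _ = ENNReal.ofReal (d / 150 * (75 * 2 ^ n)) := (ENNReal.ofReal_mul (by positivity)).symm
    _ < ENNReal.ofReal (d * 2 ^ n) := by
        rw [ENNReal.ofReal_lt_ofReal_iff (by positivity)]
        have : 0 < d * 2 ^ n := by positivity
        nlinarith

/-- (1) There is an absolute constant `c > 0` such that for ALL `n ≥ 0`, at every unit of the 3-adic
integers and at every positive integer prime to 3, the estimating series is at least `c 2^n` and
exceeds `c` times its mean value over the 3-adic units.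
(2) There are absolute `c > 0` and `A` such that for all `M ≥ 0`, all `n ≥ A 9^M`, every residue
class `r` modulo `6^M`, every unit `a` of the 3-adic integers and every positive integer `a` prime
to 3: the central terms `2.15 n ≤ ℓ ≤ 2.75 n` of the series alone, and in them only the counted `b`
of the residue class `r` modulo `6^M`, give more than `c 2^(-M-2·9^M)` times the mean value of the
whole series. -/
theorem result :
    (∃ c : ℝ, 0 < c ∧ ∀ n : ℕ,
      (∀ a : ℤ_[3]ˣ, ENNReal.ofReal (c * 2 ^ n) ≤ s n (a : ℤ_[3]) ∧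
        ENNReal.ofReal c * sbar n < s n (a : ℤ_[3])) ∧
      (∀ a : ℕ, 0 < a → ¬ 3 ∣ a → ENNReal.ofReal (c * 2 ^ n) ≤ sNat n a ∧
        ENNReal.ofReal c * sbar n < sNat n a)) ∧
    (∃ c : ℝ, 0 < c ∧ ∃ A : ℕ, ∀ M n : ℕ, A * 9 ^ M ≤ n → ∀ r : ℕ,
      (∀ a : ℤ_[3]ˣ, ENNReal.ofReal (c / 2 ^ (M + 2 * 9 ^ M)) * sbar n <
        ∑ ℓ ∈ central n, (eClassZ M r ℓ (kk n ℓ) (a : ℤ_[3]) : ENNReal)) ∧
      (∀ a : ℕ, 0 < a → ¬ 3 ∣ a → ENNReal.ofReal (c / 2 ^ (M + 2 * 9 ^ M)) * sbar n <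
        ∑ ℓ ∈ central n, (eClass M r ℓ (kk n ℓ) a : ENNReal))) := by
  obtain ⟨c, hc, A, h⟩ := central_nat
  constructor
  · -- all `n`
    set d : ℝ := min (c / 4) (1 / 2 ^ A) with hd
    have hd0 : 0 < d := lt_min (by positivity) (by positivity)
    have hd1 : ∀ n : ℕ, ENNReal.ofReal (d / 150 * 2 ^ n) ≤ ENNReal.ofReal (d * 2 ^ n) := by
      intro n
      apply ENNReal.ofReal_le_ofReal
      have : 0 < d * 2 ^ n := by positivity
      nlinarith
    have hlarge : ∀ n : ℕ, A ≤ n → ∀ x : ENNReal,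
        ENNReal.ofReal (c / 2 ^ (0 + 2 * 9 ^ 0) * 2 ^ n) ≤ x → ENNReal.ofReal (d * 2 ^ n) ≤ x := by
      intro n _ x hx
      refine le_trans (ENNReal.ofReal_le_ofReal ?_) hx
      apply mul_le_mul_of_nonneg_right _ (by positivity)
      refine (min_le_left _ _).trans (le_of_eq ?_)
      norm_num
    have hsmall : ∀ n : ℕ, n < A → ∀ x : ENNReal, 1 ≤ x → ENNReal.ofReal (d * 2 ^ n) ≤ x := by
      intro n hn x hx
      refine le_trans ?_ hx
      rw [← ENNReal.ofReal_one]
      apply ENNReal.ofReal_le_ofReal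
      have h1 : (2 : ℝ) ^ n ≤ 2 ^ A := pow_le_pow_right₀ (by norm_num) hn.le
      calc d * 2 ^ n ≤ 1 / 2 ^ A * 2 ^ A :=
            mul_le_mul (min_le_right _ _) h1 (by positivity) (by positivity)
        _ = 1 := by field_simp
    have hZ : ∀ (n : ℕ) (a : ℤ_[3]ˣ), ENNReal.ofReal (d * 2 ^ n) ≤ s n (a : ℤ_[3]) := by
      intro n a
      rcases lt_or_ge n A with hn | hn
      · apply hsmall n hn
        refine le_trans ?_ (ENNReal.le_tsum 0)
        have := one_le_e (kk n 0) ((a : ℤ_[3]).appr 0 + 3 ^ 0) (by positivity)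
        exact_mod_cast this
      · apply hlarge n hn
        refine ((h 0 n (by simpa using hn) 0).1 a).trans ?_
        have e1 : ∀ ℓ, eClassZ 0 0 ℓ (kk n ℓ) (a : ℤ_[3]) = eZ ℓ (kk n ℓ) (a : ℤ_[3]) := by
          intro ℓ
          unfold eClassZ eZ
          rw [eClass_zero, add_zero]
        simp only [e1]
        exact ENNReal.sum_le_tsum _
    have hN : ∀ (n a : ℕ), 0 < a → ¬ 3 ∣ a → ENNReal.ofReal (d * 2 ^ n) ≤ sNat n a := by
      intro n a ha0 ha
      rcases lt_or_ge n A with hn | hn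
      · apply hsmall n hn
        refine le_trans ?_ (ENNReal.le_tsum 0)
        have := one_le_e (kk n 0) a ha0
        exact_mod_cast this
      · apply hlarge n hn
        refine ((h 0 n (by simpa using hn) 0).2 a ha0 ha).trans ?_
        simp only [eClass_zero]
        exact ENNReal.sum_le_tsum _
    refine ⟨d / 150, by positivity, fun n => ⟨fun a => ⟨?_, ?_⟩, fun a ha0 ha => ⟨?_, ?_⟩⟩⟩
    · exact (hd1 n).trans (hZ n a)
    · exact (key_lt hd0 n).trans_le (hZ n a)
    · exact (hd1 n).trans (hN n a ha0 ha)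
    · exact (key_lt hd0 n).trans_le (hN n a ha0 ha)
  · refine ⟨c / 150, by positivity, A, fun M n hn r => ⟨fun a => ?_, fun a ha0 ha => ?_⟩⟩
    · have e1 : c / 150 / 2 ^ (M + 2 * 9 ^ M) = c / 2 ^ (M + 2 * 9 ^ M) / 150 := by ring
      rw [e1]
      exact (key_lt (by positivity) n).trans_le ((h M n hn r).1 a)
    · have e1 : c / 150 / 2 ^ (M + 2 * 9 ^ M) = c / 2 ^ (M + 2 * 9 ^ M) / 150 := by ring
      rw [e1]
      exact (key_lt (by positivity) n).trans_le ((h M n hn r).2 a ha0 ha)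

end Pool.Agent.Results.MP_0f3fac_nt.InEveryClass
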